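import Pool.Agent.V11270.LS.Mahler

/-!
# MP_7488b5: algebraic power series of degree greater than `n` whose exponent `ŵ*ₙ` is less than `n`
-/

set_option autoImplicit false

open Polynomial

namespace Pool.Agent.Results.MP_7488b5_nt.MahlerSeriesUniform

open Pool.Agent.V11270.LS

variable {F : Type} [Field F] [Fintype F]

/-- `A` is the minimal defining polynomial over `F[T]` of the series `α`: it is irreducible in
`F[T][X]` and vanishes at `α`. -/
def IsMinDef (A : F[X][X]) (α : LaurentSeries F) : Prop := Irreducible A ∧ ev A α = 0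

/-- The property in the definition of `ŵ*ₙ(ξ)`: there is `H₀` such that for every `H > H₀` some
algebraic `α` of degree at most `n` with `H(α) ≤ H` satisfies
`0 < |ξ - α| < H(α)⁻¹ H ^ (-w)`. -/
def HasUnifStar (n : ℕ) (ξ : LaurentSeries F) (w : ℝ) : Prop :=
  ∃ H₀ : ℝ, ∀ H : ℝ, H₀ < H → ∃ (α : LaurentSeries F) (A : F[X][X]), IsMinDef A α ∧
    A.natDegree ≤ n ∧ height A ≤ H ∧ 0 < absv (ξ - α) ∧
    absv (ξ - α) < (height A)⁻¹ * H ^ (-w)

/-- The exponent `ŵ*ₙ(ξ)`: the supremum, in the extended reals, of the admissible `w`. -/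
noncomputable def whatStar (n : ℕ) (ξ : LaurentSeries F) : EReal :=
  sSup ((fun w : ℝ => (w : EReal)) '' {w | HasUnifStar n ξ w})

theorem unif_le {p : ℕ} [hp : Fact p.Prime] {n : ℕ} (hn : n + 2 ≤ p) {w : ℝ}
    (h : HasUnifStar n (mahler p) w) : w ≤ ((p : ℝ) - 1) / (p - n) := by
  have hp1 : (1 : ℝ) < p := by exact_mod_cast hp.out.one_lt
  have hp0 : (0 : ℝ) < p := by linarith
  have hnp : ((n : ℝ) + 2) ≤ p := by exact_mod_cast hn
  have hpn : (0 : ℝ) < (p : ℝ) - n := by linarith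
  by_contra hlt
  push Not at hlt
  rw [div_lt_iff₀ hpn] at hlt
  have hw0 : 0 < w := by
    by_contra h0
    push Not at h0
    nlinarith
  set δ : ℝ := w * (p - n) - (p - 1) with hδ
  have hδ0 : 0 < δ := by linarith
  obtain ⟨H₀, hH₀⟩ := h
  obtain ⟨k, hk⟩ := exists_nat_gt (max (w / δ) H₀)
  set a : ℕ := p ^ k with ha
  have hka : k ≤ a := (Nat.lt_pow_self hp.out.one_lt).le
  have hkaR : (k : ℝ) ≤ a := by exact_mod_cast hka
  have ha1 : 1 ≤ a := Nat.one_le_pow _ _ hp.out.pos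
  have hak : w ≤ a * δ := by
    have h1 : w / δ < a := lt_of_lt_of_le ((le_max_left _ _).trans_lt hk) hkaR
    rw [div_lt_iff₀ hδ0] at h1
    exact h1.le
  have haH : H₀ < a := lt_of_lt_of_le ((le_max_right _ _).trans_lt hk) hkaR
  -- the height
  set E : ℕ := (p - n) * a - 1 with hE
  have hpa : p ^ (k + 1) = p * a := by rw [pow_succ, ha]; ring
  have hE1 : (p - n) * a = E + 1 := by
    have : 1 ≤ (p - n) * a := Nat.mul_pos (by omega) ha1
    omega
  have hER : (E : ℝ) = (p - n) * a - 1 := by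
    have h1 : (((p - n) * a : ℕ) : ℝ) = ((E + 1 : ℕ) : ℝ) := by rw [hE1]
    push_cast [Nat.cast_sub (by omega : n ≤ p)] at h1
    linarith
  have haE : a ≤ E := by
    have : 2 * a ≤ (p - n) * a := Nat.mul_le_mul_right a (by omega)
    omega
  set H : ℝ := (p : ℝ) ^ E with hH
  have hHpos : 0 < H := by positivity
  have hHgt : H₀ < H := by
    have h1 : (a : ℝ) < (p : ℝ) ^ a := by exact_mod_cast Nat.lt_pow_self hp.out.one_lt
    have h2 : (p : ℝ) ^ a ≤ (p : ℝ) ^ E := pow_le_pow_right₀ hp1.le haE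
    linarith
  obtain ⟨α, A, ⟨hA, hev⟩, hdeg, hht, hpos, hlt2⟩ := hH₀ H hHgt
  set h : ℝ := height A with hh
  have hh1 : 1 ≤ h := one_le_height hA.ne_zero
  have hh0 : 0 < h := by linarith
  -- the bound for `H ^ (-w)`
  have hHw : H ^ (-w) ≤ ((p : ℝ) ^ ((p - 1) * a))⁻¹ := by
    rw [Real.rpow_neg hHpos.le]
    apply inv_anti₀ (by positivity)
    rw [hH, ← Real.rpow_natCast, ← Real.rpow_natCast, ← Real.rpow_mul hp0.le]
    apply Real.rpow_le_rpow_of_exponent_le hp1.le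
    push_cast [Nat.cast_sub hp.out.one_lt.le]
    rw [hER]
    nlinarith
  have hstar : absv (mahler p - α) < h⁻¹ * ((p : ℝ) ^ ((p - 1) * a))⁻¹ :=
    lt_of_lt_of_le hlt2 (mul_le_mul_of_nonneg_left hHw (by positivity))
  have hone : 1 ≤ (p : ℝ) ^ ((p - 1) * a) := one_le_pow₀ hp1.le
  have hstar1 : absv (mahler p - α) ≤ 1 := by
    refine hstar.le.trans ?_
    calc h⁻¹ * ((p : ℝ) ^ ((p - 1) * a))⁻¹ ≤ 1 * 1 :=
          mul_le_mul (inv_le_one_of_one_le₀ hh1) (inv_le_one_of_one_le₀ hone) (by positivity)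
            zero_le_one
      _ = 1 := one_mul 1
  have hα1 : absv α ≤ 1 := by
    have h1 : α = mahler p - (mahler p - α) := by ring
    rw [h1]
    exact (absv_sub_le _ _).trans (max_le absv_mahler_le hstar1)
  have hsplit : (p : ℝ) ^ (p ^ (k + 1)) = (p : ℝ) ^ a * (p : ℝ) ^ ((p - 1) * a) := by
    rw [← pow_add, hpa]
    congr 1
    have : p * a = (p - 1) * a + a := by
      obtain ⟨r, hr⟩ : ∃ r, p = r + 1 := ⟨p - 1, by have := hp.out.pos; omega⟩
      rw [hr, Nat.add_sub_cancel]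
      ring
    omega
  by_cases h0 : ev A (psum p k) = 0
  · obtain ⟨huniq, hhq⟩ := of_rat_root hA (coprime_num k) (pow_ne_zero _ X_ne_zero)
      (emb_den_mul k) h0
    rw [absv_den] at hhq
    rw [huniq α hev, absv_sub_psum, hsplit] at hstar
    have h1 : h⁻¹ ≤ ((p : ℝ) ^ a)⁻¹ := inv_anti₀ (by positivity) hhq
    have h2 : ((p : ℝ) ^ a * (p : ℝ) ^ ((p - 1) * a))⁻¹ =
        ((p : ℝ) ^ a)⁻¹ * ((p : ℝ) ^ ((p - 1) * a))⁻¹ := mul_inv _ _
    rw [h2] at hstar
    have h3 : h⁻¹ * ((p : ℝ) ^ ((p - 1) * a))⁻¹ ≤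
        ((p : ℝ) ^ a)⁻¹ * ((p : ℝ) ^ ((p - 1) * a))⁻¹ :=
      mul_le_mul_of_nonneg_right h1 (by positivity)
    linarith
  · have h1 := lower_rat hdeg (emb_den_mul k) h0 (pow_ne_zero _ X_ne_zero)
    rw [absv_den] at h1
    have h2 : absv (ev A (psum p k)) ≤ h * absv (psum p k - α) := by
      have := absv_ev_sub_le A (absv_psum_le k) hα1
      rwa [hev, sub_zero] at this
    have hPn : (0 : ℝ) < ((p : ℝ) ^ a) ^ n := by positivity
    have h3 : 1 ≤ ((p : ℝ) ^ a) ^ n * (h * absv (psum p k - α)) :=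
      h1.trans (mul_le_mul_of_nonneg_left h2 hPn.le)
    -- lower bound for `|psum - α|`
    have h4 : h⁻¹ * (((p : ℝ) ^ a) ^ n)⁻¹ ≤ absv (psum p k - α) := by
      rw [← mul_inv, inv_le_iff_one_le_mul₀ (by positivity)]
      linarith
    have h5 : absv (psum p k - mahler p) < absv (psum p k - α) := by
      rw [absv_sub_comm, absv_sub_psum]
      refine lt_of_lt_of_le ?_ h4
      rw [← mul_inv]
      apply inv_strictAnti₀ (by positivity)
      calc h * ((p : ℝ) ^ a) ^ n ≤ (p : ℝ) ^ E * ((p : ℝ) ^ a) ^ n :=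
            mul_le_mul_of_nonneg_right hht hPn.le
        _ = (p : ℝ) ^ (E + a * n) := by rw [← pow_mul, ← pow_add]
        _ < (p : ℝ) ^ (p ^ (k + 1)) := by
            apply pow_lt_pow_right₀ hp1
            rw [hpa]
            have h6 : p * a = (p - n) * a + a * n := by
              obtain ⟨r, hr⟩ : ∃ r, p = r + n := ⟨p - n, by omega⟩
              rw [hr, Nat.add_sub_cancel]
              ring
            omega
    have h6 : absv (psum p k - α) ≤ absv (mahler p - α) := by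
      apply absv_le_of_sub_lt
      have : psum p k - α - (mahler p - α) = psum p k - mahler p := by ring
      rw [this]
      exact h5
    have h7 : h⁻¹ * (((p : ℝ) ^ a) ^ n)⁻¹ < h⁻¹ * ((p : ℝ) ^ ((p - 1) * a))⁻¹ :=
      lt_of_le_of_lt (h4.trans h6) hstar
    have h8 : (((p : ℝ) ^ a) ^ n)⁻¹ < ((p : ℝ) ^ ((p - 1) * a))⁻¹ :=
      lt_of_mul_lt_mul_left h7 (by positivity)
    have h9 : ((p : ℝ) ^ a) ^ n ≤ (p : ℝ) ^ ((p - 1) * a) := by
      rw [← pow_mul]
      apply pow_le_pow_right₀ hp1.le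
      rw [mul_comm]
      exact Nat.mul_le_mul_right a (by omega)
    have h10 := inv_anti₀ hPn h9
    linarith

/-- For every prime `p` and `2 ≤ n ≤ p - 2`, Mahler's series `ξ = ∑ T ^ (-p ^ j)` over `F_p` is
algebraic of degree greater than `n`, and `ŵ*ₙ(ξ) ≤ (p - 1) / (p - n) < n`. -/
theorem result : ∀ (p : ℕ) [Fact p.Prime] (n : ℕ), 2 ≤ n → n + 2 ≤ p →
    (∃ A : (ZMod p)[X][X], IsMinDef A (mahler p) ∧ n < A.natDegree) ∧
    whatStar n (mahler p) ≤ ((((p : ℝ) - 1) / (p - n) : ℝ) : EReal) ∧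
    ((p : ℝ) - 1) / (p - n) < n := by
  intro p hp n hn hnp
  refine ⟨?_, ?_, ?_⟩
  · obtain ⟨A, hA, hev⟩ := exists_irreducible_root (mpoly_ne_zero (p := p)) ev_mpoly
    exact ⟨A, ⟨hA, hev⟩, by have := le_natDegree hA hev; omega⟩
  · refine sSup_le ?_
    rintro _ ⟨w, hw, rfl⟩
    show ((w : ℝ) : EReal) ≤ _
    exact EReal.coe_le_coe_iff.mpr (unif_le hnp hw)
  · have h1 : (2 : ℝ) ≤ n := by exact_mod_cast hn
    have h2 : (n : ℝ) + 2 ≤ p := by exact_mod_cast hnp
    rw [div_lt_iff₀ (by linarith)]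
    nlinarith

end Pool.Agent.Results.MP_7488b5_nt.MahlerSeriesUniform
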